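import Pool.Agent.Helper37.SU.Stmts

set_option autoImplicit false

/-!
SU, module DC2 (helper5): the interpolation blocks are reproduced from their samples
-/

namespace Pool.Agent.Helper37.SU

open MeasureTheory Finset
open scoped ENNReal Classical

theorem st_DC2 (hK : ST_KAP) : ST_DC2 := by
  intro b d s f t hb
  have h1 := (hK b hb).1
  have hprod : ∀ a : Fin d → ℕ, ∏ i, kap b (s i) (a i) (t i) =
      ∑ a' ∈ gr b s, (∏ i, kap b (s i) (a i) (pt b (s i) (a' i))) * Phi b (s, a') t := by
    intro a
    have e : ∀ i, kap b (s i) (a i) (t i) = ∑ a' ∈ range (b ^ s i),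
        kap b (s i) (a i) (pt b (s i) a') * ik b (s i) (t i - pt b (s i) a') :=
      fun i => h1 (s i) (a i) (t i)
    rw [Finset.prod_congr rfl fun i _ => e i, Finset.prod_univ_sum]
    unfold gr Phi
    refine Finset.sum_congr rfl fun a' _ => ?_
    rw [Finset.prod_mul_distrib]
  unfold Dop
  rw [Finset.sum_congr rfl fun a _ => by rw [hprod a]]
  simp only [Finset.mul_sum]
  rw [Finset.sum_comm]
  refine Finset.sum_congr rfl fun a' _ => ?_
  unfold zz Dop
  rw [Finset.sum_mul]
  refine Finset.sum_congr rfl fun a _ => ?_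
  simp only [ptv]
  ring

end Pool.Agent.Helper37.SU
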