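import Pool.Agent.Helper37.SU.Stmts

set_option autoImplicit false

/-!
SU, module DC5 (helper5): the block kernels are reproduced from their samples
-/

namespace Pool.Agent.Helper37.SU

open MeasureTheory Finset
open scoped ENNReal Classical

theorem dc5_fsub (k : ℤ) (t y : UnitAddCircle) :
    (fourier k (t - y) : ℂ) = fourier k t * fourier k (-y) := by
  rw [sub_eq_add_neg]
  simp only [fourier_apply, smul_add, AddCircle.toCircle_add, Circle.coe_mul]

theorem dc5_one (hR : ST_RPR) (hD : ST_DKS) {b : ℕ} (hb : 3 ≤ b) (i : ℕ) (u y : UnitAddCircle) :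
    dk b i (u - y) = ∑ a ∈ range (b ^ i), dk b i (pt b i a - y) * ik b i (u - pt b i a) := by
  have hb1 : (1 : ℤ) ≤ b := by exact_mod_cast (by omega : 1 ≤ b)
  set Λ : Finset ℤ := (Icc (-((b : ℤ) ^ i)) ((b : ℤ) ^ i)).filter
    fun k => 4 * |k| ≤ (b : ℤ) ^ i with hΛ
  have h0 : ∀ k : ℤ, ¬ 4 * |k| ≤ (b : ℤ) ^ i → dkc b i k = 0 := by
    intro k hk
    by_contra hne
    match i, hk, hne with
    | 0, _, hne => exact hne (by simp [dkc])
    | i + 1, hk, hne =>
      have h1 := (hD b k (by omega)).2.2.1 (i + 1) (by omega) hne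
      apply hk
      have h2 : (3 : ℤ) * (b : ℤ) ^ i ≤ (b : ℤ) ^ (i + 1) := by
        rw [pow_succ, mul_comm]
        exact mul_le_mul_of_nonneg_left (by exact_mod_cast hb) (by positivity)
      have h3 : i + 1 - 1 = i := by omega
      rw [h3] at h1
      linarith
  have hdk : ∀ v : UnitAddCircle, dk b i (v - y) =
      ∑ k ∈ Λ, (((dkc b i k : ℝ) : ℂ) * fourier k (-y)) * (fourier k v : ℂ) := by
    intro v
    unfold dk
    rw [hΛ, Finset.sum_filter]
    refine Finset.sum_congr rfl fun k _ => ?_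
    split_ifs with h
    · rw [dc5_fsub]
      ring
    · rw [h0 k h]
      simp
  rw [hdk u, hR b i Λ _ u (by omega) (fun k hk => (Finset.mem_filter.1 hk).2)]
  refine Finset.sum_congr rfl fun a _ => ?_
  rw [hdk (pt b i a)]

theorem st_DC5 (hR : ST_RPR) (hD : ST_DKS) : ST_DC5 := by
  intro b d s y t hb
  unfold DK
  have e : ∀ i, dk b (s i) ((t - y) i) = ∑ a ∈ range (b ^ s i),
      dk b (s i) (pt b (s i) a - y i) * ik b (s i) (t i - pt b (s i) a) :=
    fun i => dc5_one hR hD hb (s i) (t i) (y i)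
  rw [Finset.prod_congr rfl fun i _ => e i, Finset.prod_univ_sum]
  unfold gr Phi
  refine Finset.sum_congr rfl fun a _ => ?_
  rw [Finset.prod_mul_distrib]
  rfl

end Pool.Agent.Helper37.SU
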