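import Pool.Agent.Helper37.SU.Stmts

set_option autoImplicit false

/-!
SU, module DLV (helper5): duality
-/

namespace Pool.Agent.Helper37.SU

open MeasureTheory Finset
open scoped ENNReal Classical

theorem st_DLV : ST_DLV := by
  intro ι v A S z hv hA h
  have hv0 : 0 < v := by linarith
  have hv1 : 0 < v - 1 := by linarith
  set w : ι → ℂ := fun i => (starRingEnd ℂ) (z i) * ((‖z i‖ ^ (v - 2) : ℝ) : ℂ) with hw
  have hwz : ∀ i, w i * z i = ((‖z i‖ ^ v : ℝ) : ℂ) := by
    intro i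
    by_cases h0 : z i = 0
    · rw [hw]
      simp only [h0, norm_zero, map_zero, zero_mul, mul_zero]
      rw [Real.zero_rpow hv0.ne']
      simp
    · have hn : 0 < ‖z i‖ := norm_pos_iff.2 h0
      have e1 : w i * z i = (z i * (starRingEnd ℂ) (z i)) * ((‖z i‖ ^ (v - 2) : ℝ) : ℂ) := by
        rw [hw]
        ring
      rw [e1, Complex.mul_conj, Complex.normSq_eq_norm_sq, ← Complex.ofReal_mul]
      congr 1
      rw [← Real.rpow_natCast, ← Real.rpow_add hn]
      congr 1
      push_cast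
      ring
  have hwn : ∀ i, ‖w i‖ ^ (v / (v - 1)) = ‖z i‖ ^ v := by
    intro i
    have e2 : ‖w i‖ = ‖z i‖ ^ (v - 1) := by
      rw [hw]
      simp only
      rw [norm_mul, RCLike.norm_conj, Complex.norm_real, Real.norm_of_nonneg
        (Real.rpow_nonneg (norm_nonneg _) _)]
      by_cases h0 : z i = 0
      · rw [h0, norm_zero, zero_mul, Real.zero_rpow hv1.ne']
      · have hn : 0 < ‖z i‖ := norm_pos_iff.2 h0
        have : ‖z i‖ * ‖z i‖ ^ (v - 2) = ‖z i‖ ^ (1 : ℝ) * ‖z i‖ ^ (v - 2) := by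
          rw [Real.rpow_one]
        rw [this, ← Real.rpow_add hn]
        congr 1
        ring
    rw [e2, ← Real.rpow_mul (norm_nonneg _), mul_div_cancel₀ _ hv1.ne']
  have h1 := h w
  set Z : ℝ := ∑ i ∈ S, ‖z i‖ ^ v with hZ
  have hZ0 : 0 ≤ Z := Finset.sum_nonneg fun i _ => Real.rpow_nonneg (norm_nonneg _) _
  have e3 : ∑ i ∈ S, w i * z i = ((Z : ℝ) : ℂ) := by
    rw [hZ, Complex.ofReal_sum]
    exact Finset.sum_congr rfl fun i _ => hwz i
  have e4 : lp (v / (v - 1)) S w = Z ^ ((v - 1) / v) := by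
    unfold lp
    rw [Finset.sum_congr rfl fun i _ => hwn i, one_div_div]
  rw [e3, e4, Complex.norm_real, Real.norm_of_nonneg hZ0] at h1
  show Z ^ (1 / v) ≤ A
  rcases eq_or_lt_of_le hZ0 with h0 | hpos
  · rw [← h0, Real.zero_rpow (by positivity)]
    exact hA
  · have hp : 0 < Z ^ ((v - 1) / v) := Real.rpow_pos_of_pos hpos _
    have e5 : Z ^ (1 / v) * Z ^ ((v - 1) / v) = Z := by
      rw [← Real.rpow_add hpos]
      have : 1 / v + (v - 1) / v = 1 := by
        field_simp
        ring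
      rw [this, Real.rpow_one]
    have h2 : Z ^ (1 / v) * Z ^ ((v - 1) / v) ≤ A * Z ^ ((v - 1) / v) := by
      rw [e5]
      exact h1
    exact le_of_mul_le_mul_right h2 hp

end Pool.Agent.Helper37.SU
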