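import Pool.Agent.Helper37.SU.Stmts

set_option autoImplicit false

/-!
SU, module ENF (helper5): all entries of the error matrix
-/

namespace Pool.Agent.Helper37.SU

open MeasureTheory Finset
open scoped ENNReal Classical

instance enf_prob1 : IsProbabilityMeasure haar1 := by
  unfold haar1
  infer_instance

instance enf_prob (d : ℕ) : IsProbabilityMeasure (haar d) := by
  unfold haar
  infer_instance

theorem enf_ev_cont (b j : ℕ) : Continuous (ev b j) := by
  unfold ev
  refine Continuous.inv₀ (by fun_prop) fun t => ?_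
  have : 0 ≤ (b : ℝ) ^ j * ‖t‖ := by positivity
  positivity

theorem enf_EV_cont {d : ℕ} (b : ℕ) (B : Bo d) : Continuous (EV b B) := by
  unfold EV
  refine continuous_finsetProd _ fun i _ => ?_
  exact (enf_ev_cont b (B.1 i)).comp ((continuous_apply i).sub continuous_const)

theorem enf_EV_nonneg {d : ℕ} (b : ℕ) (B : Bo d) (t : TT d) : 0 ≤ EV b B t := by
  unfold EV
  refine Finset.prod_nonneg fun i _ => ?_
  unfold ev
  positivity

theorem enf_int {d : ℕ} (b : ℕ) (B B' : Bo d) :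
    Integrable (fun t => EV b B t * EV b B' t) (haar d) :=
  ((enf_EV_cont b B).mul (enf_EV_cont b B')).integrable_of_hasCompactSupport
    (HasCompactSupport.of_compactSpace _)

theorem enf_Hm {d : ℕ} (hK : ST_HKI) (b : ℕ) (hb : 3 ≤ b) (B B' : Bo d) :
    Hm b B B' = ∫ t, DK b B.1 (ptv b B - t) * Phi b B' t ∂haar d := by
  unfold Hm DK Phi haar
  simp only [← Finset.prod_mul_distrib]
  have h := integral_fintype_prod_eq_prod (𝕜 := ℂ) (μ := fun _ : Fin d => haar1)
    (fun (i : Fin d) (x : UnitAddCircle) => dk b (B.1 i) (pt b (B.1 i) (B.2 i) - x) *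
      ik b (B'.1 i) (x - pt b (B'.1 i) (B'.2 i)))
  refine Eq.trans ?_ h.symm
  refine Finset.prod_congr rfl fun i _ => ?_
  exact (hK b (B.1 i) (B'.1 i) _ _ hb).symm

theorem enf_env {d : ℕ} (b : ℕ) (B : Bo d) (t : TT d) :
    ∏ i, ev b (B.1 i) ((ptv b B - t) i) = EV b B t := by
  unfold EV ptv
  refine Finset.prod_congr rfl fun i _ => ?_
  unfold ev
  rw [Pi.sub_apply, norm_sub_rev]

theorem st_ENF (hP : ST_PHB) (hK : ST_HKI) : ST_ENF := by
  intro b d hb
  obtain ⟨C, hC, hCb⟩ := hP b d (by omega)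
  refine ⟨C * C, mul_pos hC hC, ?_⟩
  intro m x B B'
  have hb0 : (0 : ℝ) < b := by
    have : (3 : ℝ) ≤ b := by exact_mod_cast hb
    linarith
  have hbm : (0 : ℝ) < (b : ℝ) ^ m := pow_pos hb0 m
  set P : ℝ := (b : ℝ) ^ (∑ i, B.1 i) with hPdef
  have hP0 : 0 ≤ P := (pow_pos hb0 _).le
  have hpt : ∀ t : TT d, ‖DK b B.1 (ptv b B - t) * Phi b B' t‖ ≤
      C * C * P * (EV b B t * EV b B' t) := by
    intro t
    have h1 := (hCb B' t).1
    have h2 := (hCb B (ptv b B - t)).2 B.1
    rw [enf_env] at h2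
    rw [norm_mul]
    have h3 := mul_le_mul h2 h1 (norm_nonneg _)
      (mul_nonneg (mul_nonneg hC.le hP0) (enf_EV_nonneg b B t))
    refine h3.trans (le_of_eq ?_)
    ring
  have hsum : ‖((b : ℂ) ^ m)⁻¹ * ∑ p, DK b B.1 (ptv b B - x p) * Phi b B' (x p)‖ ≤
      ((b : ℝ) ^ m)⁻¹ * (C * C * P * ∑ p, EV b B (x p) * EV b B' (x p)) := by
    rw [norm_mul, norm_inv, norm_pow, Complex.norm_natCast]
    refine mul_le_mul_of_nonneg_left ?_ (inv_nonneg.2 hbm.le)
    refine (norm_sum_le _ _).trans ?_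
    rw [Finset.mul_sum]
    exact Finset.sum_le_sum fun p _ => hpt (x p)
  have hint : ‖Hm b B B'‖ ≤ C * C * P * ∫ t, EV b B t * EV b B' t ∂haar d := by
    rw [enf_Hm hK b hb B B', ← integral_const_mul]
    exact norm_integral_le_of_norm_le ((enf_int b B B').const_mul _)
      (Filter.Eventually.of_forall hpt)
  unfold Ent
  refine (norm_sub_le _ _).trans ((add_le_add hsum hint).trans (le_of_eq ?_))
  field_simp

end Pool.Agent.Helper37.SU
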