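import Pool.Agent.Helper37.SU.Stmts

set_option autoImplicit false

/-!
SU, module KAB (helper5): bound for the kernels of the interpolation blocks
-/

namespace Pool.Agent.Helper37.SU

open MeasureTheory Finset
open scoped ENNReal Classical

theorem kab_ev (b j i : ℕ) (hb : 1 ≤ b) (t : UnitAddCircle) :
    ev b j t ≤ ((b : ℝ) ^ i) ^ 2 * ev b (j + i) t := by
  have hb1 : (1 : ℝ) ≤ b := by exact_mod_cast hb
  have hbi : (1 : ℝ) ≤ (b : ℝ) ^ i := one_le_pow₀ hb1
  have hx : 0 ≤ (b : ℝ) ^ j * ‖t‖ := by positivity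
  have hy : 0 ≤ (b : ℝ) ^ (j + i) * ‖t‖ := by positivity
  unfold ev
  rw [← one_div, ← one_div, mul_one_div, div_le_div_iff₀ (by positivity) (by positivity), one_mul,
    ← mul_pow]
  refine pow_le_pow_left₀ (by positivity) ?_ 2
  rw [pow_add]
  nlinarith

theorem st_KAB (hV : ST_VPB) : ST_KAB := by
  intro b hb
  obtain ⟨C, hC, h⟩ := hV b (by omega)
  have hb0 : (0 : ℝ) < b := by exact_mod_cast (by omega : 0 < b)
  have hev0 : ∀ j t, 0 ≤ ev b j t := by
    intro j t
    unfold ev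
    positivity
  have hik : ∀ j t, ‖ik b j t‖ ≤ C * ev b j t := by
    intro j t
    have hbj : (0 : ℝ) < (b : ℝ) ^ j := pow_pos hb0 _
    unfold ik
    rw [norm_mul, norm_inv, norm_pow, Complex.norm_natCast, inv_mul_le_iff₀ hbj]
    refine (h j t 0).1.trans (le_of_eq ?_)
    ring
  refine ⟨(1 + b) ^ 2 + C * (((b : ℝ) ^ 1) ^ 2 + ((b : ℝ) ^ 2) ^ 2), by positivity, ?_⟩
  intro j a t
  have hC1 : 0 ≤ C * (((b : ℝ) ^ 1) ^ 2 + ((b : ℝ) ^ 2) ^ 2) := by positivity
  match j with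
  | 0 =>
    have : kap b 0 a t = 0 := by simp [kap]
    rw [this, norm_zero]
    exact mul_nonneg (by positivity) (hev0 _ _)
  | 1 =>
    have e : kap b 1 a t = if a = 0 then (1 : ℂ) else 0 := by simp [kap]
    have h1 : ‖kap b 1 a t‖ ≤ 1 := by
      rw [e]
      split_ifs <;> simp
    have h2 : ‖t - pt b 1 a‖ ≤ 1 / 2 := by
      have := AddCircle.norm_le_half_period (1 : ℝ) (x := t - pt b 1 a) one_ne_zero
      rwa [abs_one] at this
    have h3 : 1 ≤ (1 + (b : ℝ)) ^ 2 * ev b 1 (t - pt b 1 a) := by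
      unfold ev
      have hn := norm_nonneg (t - pt b 1 a)
      rw [← div_eq_mul_inv, one_le_div (by positivity)]
      refine pow_le_pow_left₀ (by positivity) ?_ 2
      rw [pow_one]
      nlinarith
    refine h1.trans (h3.trans ?_)
    exact mul_le_mul_of_nonneg_right (by linarith) (hev0 _ _)
  | j + 2 =>
    have e : kap b (j + 2) a t = (if b ∣ a then ik b (j + 1) (t - pt b (j + 2) a) else 0) -
        (if b ^ 2 ∣ a then ik b j (t - pt b (j + 2) a) else 0) := by simp [kap]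
    set s := t - pt b (j + 2) a with hs
    have h1 : ‖(if b ∣ a then ik b (j + 1) s else 0)‖ ≤ C * (((b : ℝ) ^ 1) ^ 2 * ev b (j + 2) s) := by
      have h2 := kab_ev b (j + 1) 1 (by omega) s
      have h3 : ‖(if b ∣ a then ik b (j + 1) s else 0)‖ ≤ C * ev b (j + 1) s := by
        split_ifs
        · exact hik _ _
        · rw [norm_zero]
          exact mul_nonneg hC.le (hev0 _ _)
      exact h3.trans (mul_le_mul_of_nonneg_left h2 hC.le)
    have h4 : ‖(if b ^ 2 ∣ a then ik b j s else 0)‖ ≤ C * (((b : ℝ) ^ 2) ^ 2 * ev b (j + 2) s) := by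
      have h2 := kab_ev b j 2 (by omega) s
      have h3 : ‖(if b ^ 2 ∣ a then ik b j s else 0)‖ ≤ C * ev b j s := by
        split_ifs
        · exact hik _ _
        · rw [norm_zero]
          exact mul_nonneg hC.le (hev0 _ _)
      exact h3.trans (mul_le_mul_of_nonneg_left h2 hC.le)
    rw [e]
    have h5 := (norm_sub_le (if b ∣ a then ik b (j + 1) s else 0)
      (if b ^ 2 ∣ a then ik b j s else 0)).trans (add_le_add h1 h4)
    have h6 : 0 ≤ (1 + (b : ℝ)) ^ 2 * ev b (j + 2) s := mul_nonneg (by positivity) (hev0 _ _)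
    have h7 : ((1 + (b : ℝ)) ^ 2 + C * (((b : ℝ) ^ 1) ^ 2 + ((b : ℝ) ^ 2) ^ 2)) * ev b (j + 2) s =
        (1 + (b : ℝ)) ^ 2 * ev b (j + 2) s + (C * (((b : ℝ) ^ 1) ^ 2 * ev b (j + 2) s) +
          C * (((b : ℝ) ^ 2) ^ 2 * ev b (j + 2) s)) := by ring
    rw [h7]
    linarith

end Pool.Agent.Helper37.SU
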