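import Pool.Agent.Helper37.SU.Stmts

set_option autoImplicit false

/-!
SU, module KAP (helper5): the kernels of the interpolation blocks
-/

namespace Pool.Agent.Helper37.SU

open MeasureTheory Finset
open scoped ENNReal Classical

theorem kap_fadd (k : ℤ) (t y : UnitAddCircle) :
    (fourier k (t + y) : ℂ) = fourier k t * fourier k y := by
  simp only [fourier_apply, smul_add, AddCircle.toCircle_add, Circle.coe_mul]

/-- the frequencies -/
noncomputable def kap_L (b j : ℕ) : Finset ℤ :=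
  (Icc (-((b : ℤ) ^ j)) ((b : ℤ) ^ j)).filter fun k => 4 * |k| ≤ (b : ℤ) ^ j

/-- band limited functions -/
def kap_BL (b j : ℕ) (f : UnitAddCircle → ℂ) : Prop :=
  ∃ c : ℤ → ℂ, ∀ t, f t = ∑ k ∈ kap_L b j, c k * (fourier k t : ℂ)

theorem kap_zero_mem (b j : ℕ) : (0 : ℤ) ∈ kap_L b j := by
  unfold kap_L
  have : (0 : ℤ) ≤ (b : ℤ) ^ j := by positivity
  simp only [Finset.mem_filter, Finset.mem_Icc, abs_zero, mul_zero]
  exact ⟨⟨by linarith, this⟩, this⟩

theorem kap_BL_zero (b j : ℕ) : kap_BL b j fun _ => 0 :=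
  ⟨fun _ => 0, fun t => by simp⟩

theorem kap_BL_const (b j : ℕ) (a : ℂ) : kap_BL b j fun _ => a := by
  refine ⟨fun k => if k = 0 then a else 0, fun t => ?_⟩
  rw [Finset.sum_eq_single (0 : ℤ)]
  · simp
  · intro k _ hk
    simp [hk]
  · intro h
    exact absurd (kap_zero_mem b j) h

theorem kap_BL_sub {b j : ℕ} {f g : UnitAddCircle → ℂ} (hf : kap_BL b j f) (hg : kap_BL b j g) :
    kap_BL b j fun t => f t - g t := by
  obtain ⟨c, hc⟩ := hf
  obtain ⟨e, he⟩ := hg
  refine ⟨fun k => c k - e k, fun t => ?_⟩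
  show f t - g t = _
  rw [hc, he, ← Finset.sum_sub_distrib]
  exact Finset.sum_congr rfl fun k _ => by ring

theorem kap_BL_ik {b : ℕ} (hb : 3 ≤ b) (hO : ST_OM) (i j : ℕ) (hij : i + 1 ≤ j)
    (y : UnitAddCircle) : kap_BL b j fun t => ik b i (t - y) := by
  obtain ⟨_, _, h3, _, _⟩ := hO
  have hb1 : (1 : ℤ) ≤ b := by exact_mod_cast (by omega : 1 ≤ b)
  refine ⟨fun k => if k ∈ Icc (-((b : ℤ) ^ i)) ((b : ℤ) ^ i) then
    ((b : ℂ) ^ i)⁻¹ * (((om ((k : ℝ) / (b : ℝ) ^ i) : ℝ) : ℂ) * fourier k (-y)) else 0,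
    fun t => ?_⟩
  show ik b i (t - y) = _
  unfold ik vp
  rw [Finset.mul_sum]
  have hle : (b : ℤ) ^ i ≤ (b : ℤ) ^ j := pow_le_pow_right₀ hb1 (by omega)
  have hbi : (0 : ℤ) < (b : ℤ) ^ i := by positivity
  have hbiR : (0 : ℝ) < (b : ℝ) ^ i := by
    have : (0 : ℝ) < b := by exact_mod_cast (by omega : 0 < b)
    positivity
  have e1 : ∑ k ∈ Icc (-((b : ℤ) ^ i)) ((b : ℤ) ^ i),
      ((b : ℂ) ^ i)⁻¹ * (((om ((k : ℝ) / (b : ℝ) ^ i) : ℝ) : ℂ) * (fourier k (t - y) : ℂ)) =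
      ∑ k ∈ (Icc (-((b : ℤ) ^ i)) ((b : ℤ) ^ i)).filter (· ∈ kap_L b j),
      ((b : ℂ) ^ i)⁻¹ * (((om ((k : ℝ) / (b : ℝ) ^ i) : ℝ) : ℂ) * (fourier k (t - y) : ℂ)) := by
    symm
    refine Finset.sum_subset (Finset.filter_subset _ _) ?_
    intro k hk hk2
    have hk3 : ¬ k ∈ kap_L b j := fun h => hk2 (Finset.mem_filter.2 ⟨hk, h⟩)
    have hk4 : ¬ 4 * |k| ≤ (b : ℤ) ^ j := by
      intro h
      apply hk3
      unfold kap_L
      rw [Finset.mem_Icc] at hk
      exact Finset.mem_filter.2 ⟨Finset.mem_Icc.2 ⟨by linarith [hk.1], by linarith [hk.2]⟩, h⟩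
    have hk5 : (3 : ℤ) * (b : ℤ) ^ i ≤ 4 * |k| := by
      have h6 : (b : ℤ) ^ (i + 1) ≤ (b : ℤ) ^ j := pow_le_pow_right₀ hb1 hij
      have h7 : (3 : ℤ) * (b : ℤ) ^ i ≤ (b : ℤ) ^ (i + 1) := by
        rw [pow_succ, mul_comm]
        exact mul_le_mul_of_nonneg_left (by exact_mod_cast hb) hbi.le
      linarith [not_le.1 hk4]
    have hk6 : 3 / 4 ≤ |(k : ℝ) / (b : ℝ) ^ i| := by
      rw [abs_div, abs_of_pos hbiR, le_div_iff₀ hbiR]
      have h8 : (3 : ℝ) * (b : ℝ) ^ i ≤ 4 * |(k : ℝ)| := by exact_mod_cast hk5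
      linarith
    rw [h3 _ hk6]
    simp
  have e2 : ∑ k ∈ kap_L b j, (if k ∈ Icc (-((b : ℤ) ^ i)) ((b : ℤ) ^ i) then
      ((b : ℂ) ^ i)⁻¹ * (((om ((k : ℝ) / (b : ℝ) ^ i) : ℝ) : ℂ) * fourier k (-y)) else 0)
        * (fourier k t : ℂ) =
      ∑ k ∈ (Icc (-((b : ℤ) ^ i)) ((b : ℤ) ^ i)).filter (· ∈ kap_L b j),
      ((b : ℂ) ^ i)⁻¹ * (((om ((k : ℝ) / (b : ℝ) ^ i) : ℝ) : ℂ) * (fourier k (t - y) : ℂ)) := by
    rw [Finset.filter_mem_eq_inter, Finset.inter_comm, ← Finset.filter_mem_eq_inter,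
      Finset.sum_filter]
    refine Finset.sum_congr rfl fun k _ => ?_
    split_ifs
    · rw [sub_eq_add_neg, kap_fadd]
      ring
    · ring
  rw [e1]
  exact e2.symm

theorem kap_BL_kap {b : ℕ} (hb : 3 ≤ b) (hO : ST_OM) (j a : ℕ) : kap_BL b j (kap b j a) := by
  match j with
  | 0 =>
    have : kap b 0 a = fun _ => 0 := by
      funext t
      simp [kap]
    rw [this]
    exact kap_BL_zero b 0
  | 1 =>
    have : kap b 1 a = fun _ => (if a = 0 then (1 : ℂ) else 0) := by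
      funext t
      simp [kap]
    rw [this]
    exact kap_BL_const b 1 _
  | j + 2 =>
    have : kap b (j + 2) a = fun t => (if b ∣ a then ik b (j + 1) (t - pt b (j + 2) a) else 0) -
        (if b ^ 2 ∣ a then ik b j (t - pt b (j + 2) a) else 0) := by
      funext t
      simp [kap]
    rw [this]
    refine kap_BL_sub ?_ ?_
    · by_cases h : b ∣ a
      · simp only [h, if_true]
        exact kap_BL_ik hb hO (j + 1) (j + 2) le_rfl _
      · simp only [h, if_false]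
        exact kap_BL_zero b _
    · by_cases h : b ^ 2 ∣ a
      · simp only [h, if_true]
        exact kap_BL_ik hb hO j (j + 2) (by omega) _
      · simp only [h, if_false]
        exact kap_BL_zero b _

/-- the interpolation operator on a character -/
noncomputable def kap_I (b j : ℕ) (k : ℤ) (t : UnitAddCircle) : ℂ :=
  ∑ a ∈ range (b ^ j), (fourier k (pt b j a) : ℂ) * ik b j (t - pt b j a)

theorem kap_mult (c : ℕ) (hc : 0 < c) (F : ℕ → ℂ) (N : ℕ) :
    ∑ a ∈ range (c * N), (if c ∣ a then F a else 0) = ∑ a ∈ range N, F (c * a) := by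
  induction N with
  | zero => simp
  | succ N ih =>
    rw [Nat.mul_succ, Finset.sum_range_add, ih, Finset.sum_range_succ]
    congr 1
    rw [Finset.sum_eq_single 0]
    · simp
    · intro x hx hx0
      rw [if_neg]
      intro h
      have h1 : c ∣ x := (Nat.dvd_add_right (Dvd.intro N rfl)).1 h
      have h2 := Nat.le_of_dvd (Nat.pos_of_ne_zero hx0) h1
      have h3 := Finset.mem_range.1 hx
      omega
    · intro h
      exact absurd (Finset.mem_range.2 hc) h

theorem kap_pt (b i j a : ℕ) (hb : 0 < b) : pt b (i + j) (b ^ i * a) = pt b j a := by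
  unfold pt
  have hb0 : (b : ℝ) ≠ 0 := by exact_mod_cast hb.ne'
  congr 1
  push_cast
  rw [pow_add]
  field_simp

theorem kap_D0 (b : ℕ) (k : ℤ) (t : UnitAddCircle) : D1 b 0 k t = 0 := by
  unfold D1
  simp [kap]

theorem kap_I0 {b : ℕ} (hO : ST_OM) (k : ℤ) (t : UnitAddCircle) : kap_I b 0 k t = 1 := by
  obtain ⟨_, h2, h3, _, _⟩ := hO
  unfold kap_I ik vp pt
  have e : Icc (-((b : ℤ) ^ 0)) ((b : ℤ) ^ 0) = {-1, 0, 1} := by
    rw [pow_zero]
    decide
  rw [e]
  have o1 : om 1 = 0 := h3 1 (by norm_num)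
  have o2 : om (-1) = 0 := h3 (-1) (by norm_num)
  have o0 : om 0 = 1 := h2 0 (by norm_num)
  simp [o1, o2, o0]

theorem kap_D1 {b : ℕ} (hb : 0 < b) (k : ℤ) (t : UnitAddCircle) : D1 b 1 k t = 1 := by
  unfold D1
  rw [Finset.sum_eq_single 0]
  · simp [kap, pt]
  · intro a _ ha
    simp [kap, ha]
  · intro h
    exact absurd (Finset.mem_range.2 (by rw [pow_one]; exact hb)) h

theorem kap_D2 {b : ℕ} (hb : 0 < b) (j : ℕ) (k : ℤ) (t : UnitAddCircle) :
    D1 b (j + 2) k t = kap_I b (j + 1) k t - kap_I b j k t := by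
  unfold D1 kap_I
  have h1 := kap_mult b hb (fun a => (fourier k (pt b (j + 2) a) : ℂ) *
    ik b (j + 1) (t - pt b (j + 2) a)) (b ^ (j + 1))
  have h2 := kap_mult (b ^ 2) (pow_pos hb 2) (fun a => (fourier k (pt b (j + 2) a) : ℂ) *
    ik b j (t - pt b (j + 2) a)) (b ^ j)
  have e1 : b * b ^ (j + 1) = b ^ (j + 2) := by ring
  have e2 : b ^ 2 * b ^ j = b ^ (j + 2) := by ring
  rw [e1] at h1
  rw [e2] at h2
  have p1 : ∀ a, pt b (j + 2) (b * a) = pt b (j + 1) a := by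
    intro a
    have := kap_pt b 1 (j + 1) a hb
    rw [pow_one, (by ring : 1 + (j + 1) = j + 2)] at this
    exact this
  have p2 : ∀ a, pt b (j + 2) (b ^ 2 * a) = pt b j a := by
    intro a
    have := kap_pt b 2 j a hb
    rw [(by ring : 2 + j = j + 2)] at this
    exact this
  simp only [p1] at h1
  simp only [p2] at h2
  rw [← h1, ← h2, ← Finset.sum_sub_distrib]
  refine Finset.sum_congr rfl fun a _ => ?_
  have e3 : kap b (j + 2) a t = (if b ∣ a then ik b (j + 1) (t - pt b (j + 2) a) else 0) -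
      (if b ^ 2 ∣ a then ik b j (t - pt b (j + 2) a) else 0) := by
    simp [kap]
  rw [e3]
  split_ifs <;> ring

theorem kap_sum {b : ℕ} (hb : 0 < b) (hO : ST_OM) (J : ℕ) (k : ℤ) (t : UnitAddCircle) :
    ∑ j ∈ range (J + 2), D1 b j k t = kap_I b J k t := by
  induction J with
  | zero =>
    rw [Finset.sum_range_succ, Finset.sum_range_one, kap_D0, kap_D1 hb, kap_I0 hO]
    ring
  | succ J ih =>
    rw [Finset.sum_range_succ, ih, kap_D2 hb]
    ring

theorem st_KAP (hO : ST_OM) (hR : ST_RPR) : ST_KAP := by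
  intro b hb
  have hb0 : 0 < b := by omega
  have hI : ∀ (J : ℕ) (k : ℤ) (t : UnitAddCircle), 4 * |k| ≤ (b : ℤ) ^ J →
      kap_I b J k t = fourier k t := by
    intro J k t hk
    have := hR b J {k} (fun _ => 1) t (by omega) (by
      intro k' hk'
      rw [Finset.mem_singleton] at hk'
      rw [hk']
      exact hk)
    simp only [Finset.sum_singleton, one_mul] at this
    exact this.symm
  refine ⟨?_, ?_, ?_⟩
  · intro j a t
    obtain ⟨c, hc⟩ := kap_BL_kap hb hO j a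
    have := hR b j (kap_L b j) c t (by omega) (by
      intro k hk
      exact (Finset.mem_filter.1 hk).2)
    rw [hc t, this]
    refine Finset.sum_congr rfl fun a' _ => ?_
    rw [hc (pt b j a')]
  · intro J k t hk
    rw [kap_sum hb0 hO, hI J k t hk]
  · intro j k t hk
    have hk1 : 4 * |k| ≤ (b : ℤ) ^ (j + 1) := by
      refine hk.trans (pow_le_pow_right₀ ?_ (by omega))
      exact_mod_cast (by omega : 1 ≤ b)
    rw [kap_D2 hb0, hI _ _ _ hk1, hI _ _ _ hk, sub_self]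

end Pool.Agent.Helper37.SU
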