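import Pool.Agent.Helper37.SU.Stmts

set_option autoImplicit false

/-!
SU, module LPT (helper5): elementary facts on the `ℓ_u` norms
-/

namespace Pool.Agent.Helper37.SU

open MeasureTheory Finset
open scoped ENNReal Classical

theorem lpt_nonneg {ι : Type} (u : ℝ) (S : Finset ι) (y : ι → ℂ) : 0 ≤ lp u S y :=
  Real.rpow_nonneg (Finset.sum_nonneg fun i _ => Real.rpow_nonneg (norm_nonneg _) _) _

theorem lpt_add {ι : Type} (u : ℝ) (S : Finset ι) (y z : ι → ℂ) (hu : 1 ≤ u) :
    lp u S (fun i => y i + z i) ≤ lp u S y + lp u S z := by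
  have hu0 : 0 < u := lt_of_lt_of_le one_pos hu
  have h1 := Real.Lp_add_le_of_nonneg (s := S) (p := u) (f := fun i => ‖y i‖)
    (g := fun i => ‖z i‖) hu (fun i _ => norm_nonneg _) (fun i _ => norm_nonneg _)
  refine le_trans ?_ h1
  unfold lp
  refine Real.rpow_le_rpow (Finset.sum_nonneg fun i _ => Real.rpow_nonneg (norm_nonneg _) _) ?_
    (by positivity)
  exact Finset.sum_le_sum fun i _ => Real.rpow_le_rpow (norm_nonneg _) (norm_add_le _ _) hu0.le

theorem lpt_zero {ι : Type} (u : ℝ) (S : Finset ι) (hu : 0 < u) :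
    lp u S (fun _ => (0 : ℂ)) = 0 := by
  unfold lp
  simp only [norm_zero, Real.zero_rpow hu.ne', Finset.sum_const_zero]
  exact Real.zero_rpow (by positivity)

theorem st_LPT : ST_LPT := by
  refine ⟨?_, ?_, ?_, ?_⟩
  · intro ι κ u S T y hu
    induction T using Finset.induction_on with
    | empty =>
      simp only [Finset.sum_empty]
      rw [lpt_zero u S (lt_of_lt_of_le one_pos hu)]
    | insert j T hj ih =>
      have e : (fun i => ∑ j' ∈ insert j T, y j' i) = fun i => y j i + ∑ j' ∈ T, y j' i := by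
        funext i
        rw [Finset.sum_insert hj]
      rw [e, Finset.sum_insert hj]
      exact (lpt_add u S _ _ hu).trans (add_le_add le_rfl ih)
  · intro ι u S a y hu
    unfold lp
    have e : ∀ i, ‖a * y i‖ ^ u = ‖a‖ ^ u * ‖y i‖ ^ u := by
      intro i
      rw [norm_mul, Real.mul_rpow (norm_nonneg _) (norm_nonneg _)]
    rw [Finset.sum_congr rfl fun i _ => e i, ← Finset.mul_sum,
      Real.mul_rpow (Real.rpow_nonneg (norm_nonneg _) _)
        (Finset.sum_nonneg fun i _ => Real.rpow_nonneg (norm_nonneg _) _),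
      ← Real.rpow_mul (norm_nonneg _), mul_one_div_cancel hu.ne', Real.rpow_one]
  · intro ι u S y z hu h
    unfold lp
    refine Real.rpow_le_rpow (Finset.sum_nonneg fun i _ => Real.rpow_nonneg (norm_nonneg _) _) ?_
      (by positivity)
    exact Finset.sum_le_sum fun i hi => Real.rpow_le_rpow (norm_nonneg _) (h i hi) hu.le
  · intro ι u v S y hv hvu
    have hu : 0 < u := lt_of_lt_of_le hv hvu
    have hN := lpt_nonneg v S y
    set N := lp v S y with hNd
    have hs0 : 0 ≤ ∑ i ∈ S, ‖y i‖ ^ v :=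
      Finset.sum_nonneg fun i _ => Real.rpow_nonneg (norm_nonneg _) _
    have hNv : N ^ v = ∑ i ∈ S, ‖y i‖ ^ v := by
      rw [hNd]
      unfold lp
      rw [← Real.rpow_mul hs0, one_div_mul_cancel hv.ne', Real.rpow_one]
    have hle : ∀ i ∈ S, ‖y i‖ ≤ N := by
      intro i hi
      have h1 : ‖y i‖ ^ v ≤ N ^ v := by
        rw [hNv]
        exact Finset.single_le_sum (f := fun i => ‖y i‖ ^ v)
          (fun i _ => Real.rpow_nonneg (norm_nonneg _) _) hi
      exact (Real.rpow_le_rpow_iff (norm_nonneg _) hN hv).1 h1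
    have hterm : ∀ i ∈ S, ‖y i‖ ^ u ≤ N ^ (u - v) * ‖y i‖ ^ v := by
      intro i hi
      have e : ‖y i‖ ^ u = ‖y i‖ ^ (u - v) * ‖y i‖ ^ v := by
        rw [← Real.rpow_add_of_nonneg (norm_nonneg _) (by linarith) hv.le]
        congr 1
        ring
      rw [e]
      exact mul_le_mul_of_nonneg_right (Real.rpow_le_rpow (norm_nonneg _) (hle i hi) (by linarith))
        (Real.rpow_nonneg (norm_nonneg _) _)
    have hsum : ∑ i ∈ S, ‖y i‖ ^ u ≤ N ^ u := by
      refine (Finset.sum_le_sum hterm).trans (le_of_eq ?_)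
      rw [← Finset.mul_sum, ← hNv, ← Real.rpow_add_of_nonneg hN (by linarith) hv.le]
      congr 1
      ring
    show lp u S y ≤ N
    unfold lp
    have h2 := Real.rpow_le_rpow (Finset.sum_nonneg fun i _ => Real.rpow_nonneg (norm_nonneg _) _)
      hsum (by positivity : (0 : ℝ) ≤ 1 / u)
    rw [← Real.rpow_mul hN, mul_one_div_cancel hu.ne', Real.rpow_one] at h2
    exact h2

end Pool.Agent.Helper37.SU
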