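import Pool.Agent.Helper37.SU.Stmts

set_option autoImplicit false

/-!
SU, module NFA (helper5): the sum over the very high levels
-/

namespace Pool.Agent.Helper37.SU

open MeasureTheory Finset
open scoped ENNReal Classical

theorem nfa_shift (h : ℕ → ℝ) (h0 : ∀ i, 0 ≤ h i) (hs : Summable h) (a : ℕ) (S : Finset ℕ)
    (hS : ∀ l ∈ S, a ≤ l) : ∑ l ∈ S, h (l - a) ≤ ∑' i, h i := by
  have h1 : ∑ l ∈ S, h (l - a) = ∑ i ∈ S.image (fun l => l - a), h i := by
    rw [Finset.sum_image]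
    intro x hx y hy hxy
    have hx' := hS x hx
    have hy' := hS y hy
    simp only at hxy
    omega
  rw [h1]
  exact hs.sum_le_tsum _ fun i _ => h0 i

theorem st_NFA : ST_NFA := by
  intro b d γ q hb hγ hq
  have hb1 : (1 : ℝ) < b := by exact_mod_cast (by omega : 1 < b)
  have hb0 : (0 : ℝ) < b := by linarith
  have hq0 : 0 < q := by linarith
  set x : ℝ := (b : ℝ) ^ (-(1 / q)) with hx
  set y : ℝ := (b : ℝ) ^ (-γ) with hy
  have hx0 : 0 < x := Real.rpow_pos_of_pos hb0 _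
  have hy0 : 0 < y := Real.rpow_pos_of_pos hb0 _
  have hx1 : x < 1 := Real.rpow_lt_one_of_one_lt_of_neg hb1 (by
    have : 0 < 1 / q := by positivity
    linarith)
  have hy1 : y < 1 := Real.rpow_lt_one_of_one_lt_of_neg hb1 (by linarith)
  have ex : ∀ l : ℕ, (b : ℝ) ^ (-((l : ℝ) / q)) = x ^ l := by
    intro l
    rw [hx, ← Real.rpow_natCast, ← Real.rpow_mul hb0.le]
    congr 1
    ring
  have ey : ∀ l : ℕ, (b : ℝ) ^ (-((l : ℝ) * γ)) = y ^ l := by
    intro l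
    rw [hy, ← Real.rpow_natCast, ← Real.rpow_mul hb0.le]
    congr 1
    ring
  have hsx : Summable fun i : ℕ => x ^ i := summable_geometric_of_lt_one hx0.le hx1
  have hsy : Summable fun i : ℕ => (1 + (i : ℝ)) ^ d * y ^ i := by
    have h1 : Summable fun n : ℕ => ((n : ℝ)) ^ d * y ^ n :=
      summable_pow_mul_geometric_of_norm_lt_one d (by rwa [Real.norm_of_nonneg hy0.le])
    have h2 := ((summable_nat_add_iff 1).2 h1).mul_left y⁻¹
    refine h2.congr fun i => ?_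
    push_cast
    rw [pow_succ]
    field_simp
    ring
  set K1 : ℝ := ∑' i : ℕ, x ^ i with hK1
  set K2 : ℝ := ∑' i : ℕ, (1 + (i : ℝ)) ^ d * y ^ i with hK2
  have hK10 : 0 ≤ K1 := tsum_nonneg fun i => by positivity
  have hK20 : 0 ≤ K2 := tsum_nonneg fun i => by positivity
  refine ⟨K1 * K2 * 2 ^ d + 1, by positivity, ?_⟩
  intro n₀ n₃ n L hn
  simp only [ex, ey]
  have hin : ∀ l ∈ Icc n₀ n, ∑ l' ∈ Ioc n₃ L, x ^ l * y ^ l' * (1 + (l : ℝ) + l') ^ d ≤
      x ^ l * (2 ^ d * (1 + (n₃ : ℝ)) ^ d * y ^ n₃ * K2) := by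
    intro l hl
    have hln : l ≤ n₃ := (Finset.mem_Icc.1 hl).2.trans hn
    have h1 : ∀ l' ∈ Ioc n₃ L, x ^ l * y ^ l' * (1 + (l : ℝ) + l') ^ d ≤
        x ^ l * (2 ^ d * (1 + (n₃ : ℝ)) ^ d * y ^ n₃ *
          ((1 + ((l' - n₃ : ℕ) : ℝ)) ^ d * y ^ (l' - n₃))) := by
      intro l' hl'
      obtain ⟨i, rfl⟩ : ∃ i, l' = n₃ + i := ⟨l' - n₃, by
        have := (Finset.mem_Ioc.1 hl').1
        omega⟩
      have e : n₃ + i - n₃ = i := by omega
      rw [e, pow_add]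
      have h2 : (1 + (l : ℝ) + ((n₃ + i : ℕ) : ℝ)) ^ d ≤ (2 * (1 + (n₃ : ℝ)) * (1 + (i : ℝ))) ^ d := by
        refine pow_le_pow_left₀ (by positivity) ?_ d
        have h3 : (l : ℝ) ≤ n₃ := by exact_mod_cast hln
        have h4 : (0 : ℝ) ≤ n₃ := by positivity
        have h5 : (0 : ℝ) ≤ i := by positivity
        push_cast
        nlinarith [mul_nonneg h4 h5]
      rw [mul_pow, mul_pow] at h2
      have h6 := mul_le_mul_of_nonneg_left h2 (by positivity : 0 ≤ x ^ l * (y ^ n₃ * y ^ i))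
      refine h6.trans (le_of_eq ?_)
      ring
    refine (Finset.sum_le_sum h1).trans ?_
    rw [← Finset.mul_sum, ← Finset.mul_sum]
    refine mul_le_mul_of_nonneg_left (mul_le_mul_of_nonneg_left ?_ (by positivity)) (by positivity)
    exact nfa_shift (fun i => (1 + (i : ℝ)) ^ d * y ^ i) (fun i => by positivity) hsy n₃ (Ioc n₃ L)
      fun l' hl' => (Finset.mem_Ioc.1 hl').1.le
  refine (Finset.sum_le_sum hin).trans ?_
  rw [← Finset.sum_mul]
  have hout : ∑ l ∈ Icc n₀ n, x ^ l ≤ x ^ n₀ * K1 := by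
    have h1 : ∑ l ∈ Icc n₀ n, x ^ l = x ^ n₀ * ∑ l ∈ Icc n₀ n, x ^ (l - n₀) := by
      rw [Finset.mul_sum]
      refine Finset.sum_congr rfl fun l hl => ?_
      rw [← pow_add]
      congr 1
      have := (Finset.mem_Icc.1 hl).1
      omega
    rw [h1]
    refine mul_le_mul_of_nonneg_left ?_ (by positivity)
    exact nfa_shift (fun i => x ^ i) (fun i => by positivity) hsx n₀ (Icc n₀ n)
      fun l hl => (Finset.mem_Icc.1 hl).1
  have h9 := mul_le_mul_of_nonneg_right hout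
    (by positivity : 0 ≤ 2 ^ d * (1 + (n₃ : ℝ)) ^ d * y ^ n₃ * K2)
  refine h9.trans ?_
  have h10 : 0 ≤ (1 + (n₃ : ℝ)) ^ d * x ^ n₀ * y ^ n₃ := by positivity
  have e : (K1 * K2 * 2 ^ d + 1) * (1 + (n₃ : ℝ)) ^ d * x ^ n₀ * y ^ n₃ =
      x ^ n₀ * K1 * (2 ^ d * (1 + (n₃ : ℝ)) ^ d * y ^ n₃ * K2) +
        (1 + (n₃ : ℝ)) ^ d * x ^ n₀ * y ^ n₃ := by ring
  rw [e]
  linarith

end Pool.Agent.Helper37.SU
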