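import Pool.Agent.Helper37.SU.Stmts

set_option autoImplicit false

/-!
SU, module PHB (helper5): bound for the basis functions
-/

namespace Pool.Agent.Helper37.SU

open MeasureTheory Finset
open scoped ENNReal Classical

theorem st_PHB (hV : ST_VPB) : ST_PHB := by
  intro b d hb
  obtain ⟨C, hC, h⟩ := hV b hb
  refine ⟨C ^ d, pow_pos hC d, ?_⟩
  intro B t
  have hb0 : (0 : ℝ) < b := by exact_mod_cast (by omega : 0 < b)
  constructor
  · unfold Phi EV
    rw [norm_prod]
    have h1 : ∏ i, ‖ik b (B.1 i) (t i - pt b (B.1 i) (B.2 i))‖ ≤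
        ∏ i, (C * ev b (B.1 i) (t i - pt b (B.1 i) (B.2 i))) := by
      refine Finset.prod_le_prod (fun i _ => norm_nonneg _) fun i _ => ?_
      have h2 := (h (B.1 i) (t i - pt b (B.1 i) (B.2 i)) 0).1
      have hbj : (0 : ℝ) < (b : ℝ) ^ B.1 i := pow_pos hb0 _
      unfold ik
      rw [norm_mul, norm_inv, norm_pow, Complex.norm_natCast, inv_mul_le_iff₀ hbj]
      refine h2.trans (le_of_eq ?_)
      ring
    refine h1.trans (le_of_eq ?_)
    rw [Finset.prod_mul_distrib, Finset.prod_const, Finset.card_univ, Fintype.card_fin]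
  · intro s
    unfold DK
    rw [norm_prod]
    have h1 : ∏ i, ‖dk b (s i) (t i)‖ ≤ ∏ i, (C * (b : ℝ) ^ s i * ev b (s i) (t i)) :=
      Finset.prod_le_prod (fun i _ => norm_nonneg _) fun i _ => (h (s i) (t i) 0).2.1
    refine h1.trans (le_of_eq ?_)
    rw [Finset.prod_mul_distrib, Finset.prod_mul_distrib, Finset.prod_const, Finset.card_univ,
      Fintype.card_fin, Finset.prod_pow_eq_pow_sum]

end Pool.Agent.Helper37.SU
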