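import Pool.Agent.Helper37.SU.Stmts

set_option autoImplicit false

/-!
SU, module SCH (helper5): the Schur test
-/

namespace Pool.Agent.Helper37.SU

open MeasureTheory Finset
open scoped ENNReal Classical

theorem st_SCH : ST_SCH := by
  intro ι κ v R Q S T e z hv hR hQ h1 h2
  have hv0 : 0 < v := lt_of_lt_of_le one_pos hv
  have hvi : 0 ≤ 1 - v⁻¹ := by
    have : v⁻¹ ≤ 1 := inv_le_one_of_one_le₀ hv
    linarith
  set W : ℝ := R ^ (1 - v⁻¹) with hW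
  have hW0 : 0 ≤ W := Real.rpow_nonneg hR _
  have hX0 : ∀ i, 0 ≤ ∑ j ∈ T, ‖e i j‖ * ‖z j‖ ^ v := fun i =>
    Finset.sum_nonneg fun j _ => mul_nonneg (norm_nonneg _) (Real.rpow_nonneg (norm_nonneg _) _)
  have hrow : ∀ i ∈ S, ‖∑ j ∈ T, e i j * z j‖ ^ v ≤ W ^ v * ∑ j ∈ T, ‖e i j‖ * ‖z j‖ ^ v := by
    intro i hi
    have a1 : ‖∑ j ∈ T, e i j * z j‖ ≤ ∑ j ∈ T, ‖e i j‖ * ‖z j‖ := by
      refine (norm_sum_le _ _).trans (le_of_eq ?_)
      exact Finset.sum_congr rfl fun j _ => norm_mul _ _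
    have a2 := Real.inner_le_weight_mul_Lp_of_nonneg T hv (fun j => ‖e i j‖) (fun j => ‖z j‖)
      (fun j => norm_nonneg _) (fun j => norm_nonneg _)
    have a3 : (∑ j ∈ T, ‖e i j‖) ^ (1 - v⁻¹) ≤ W :=
      Real.rpow_le_rpow (Finset.sum_nonneg fun j _ => norm_nonneg _) (h1 i hi) hvi
    have a4 : ‖∑ j ∈ T, e i j * z j‖ ≤ W * (∑ j ∈ T, ‖e i j‖ * ‖z j‖ ^ v) ^ v⁻¹ :=
      (a1.trans a2).trans (mul_le_mul_of_nonneg_right a3 (Real.rpow_nonneg (hX0 i) _))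
    have a5 := Real.rpow_le_rpow (norm_nonneg _) a4 hv0.le
    rw [Real.mul_rpow hW0 (Real.rpow_nonneg (hX0 i) _), ← Real.rpow_mul (hX0 i),
      inv_mul_cancel₀ hv0.ne', Real.rpow_one] at a5
    exact a5
  have hsum : ∑ i ∈ S, ‖∑ j ∈ T, e i j * z j‖ ^ v ≤ W ^ v * (Q * ∑ j ∈ T, ‖z j‖ ^ v) := by
    calc ∑ i ∈ S, ‖∑ j ∈ T, e i j * z j‖ ^ v
        ≤ ∑ i ∈ S, W ^ v * ∑ j ∈ T, ‖e i j‖ * ‖z j‖ ^ v := Finset.sum_le_sum hrow
      _ = W ^ v * ∑ j ∈ T, (∑ i ∈ S, ‖e i j‖) * ‖z j‖ ^ v := by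
          rw [← Finset.mul_sum, Finset.sum_comm]
          congr 1
          exact Finset.sum_congr rfl fun j _ => (Finset.sum_mul _ _ _).symm
      _ ≤ W ^ v * (Q * ∑ j ∈ T, ‖z j‖ ^ v) := by
          refine mul_le_mul_of_nonneg_left ?_ (Real.rpow_nonneg hW0 _)
          rw [Finset.mul_sum]
          exact Finset.sum_le_sum fun j hj =>
            mul_le_mul_of_nonneg_right (h2 j hj) (Real.rpow_nonneg (norm_nonneg _) _)
  have hZ0 : 0 ≤ ∑ j ∈ T, ‖z j‖ ^ v :=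
    Finset.sum_nonneg fun j _ => Real.rpow_nonneg (norm_nonneg _) _
  unfold lp
  have a6 := Real.rpow_le_rpow (Finset.sum_nonneg fun i _ => Real.rpow_nonneg (norm_nonneg _) _)
    hsum (by positivity : (0 : ℝ) ≤ 1 / v)
  refine a6.trans (le_of_eq ?_)
  rw [Real.mul_rpow (Real.rpow_nonneg hW0 _) (mul_nonneg hQ hZ0), ← Real.rpow_mul hW0,
    mul_one_div_cancel hv0.ne', Real.rpow_one, Real.mul_rpow hQ hZ0, hW, one_div]
  ring

end Pool.Agent.Helper37.SU
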