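import Pool.Agent.Helper37.SU.Stmts

set_option autoImplicit false

/-!
SU, module AN3 (helper5): the interpolation blocks are bounded on samples
-/

namespace Pool.Agent.Helper37.SU

open MeasureTheory Finset
open scoped ENNReal Classical

theorem st_AN3 (hK : ST_KAB) (hS : ST_SCH) (hE : ST_EVI) : ST_AN3 := by
  intro b d v hb hv
  obtain ⟨C1, hC1, h1⟩ := hK b hb
  obtain ⟨C2, hC2, _, h2⟩ := hE b d (by omega)
  have hC : 0 < C1 ^ d * C2 := mul_pos (pow_pos hC1 d) hC2
  refine ⟨C1 ^ d * C2, hC, ?_⟩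
  intro s g
  have hbd : ∀ a a' : Fin d → ℕ, ‖∏ i, kap b (s i) (a' i) (pt b (s i) (a i))‖ ≤
      C1 ^ d * EV b (s, a') (ptv b (s, a)) := by
    intro a a'
    rw [norm_prod]
    have : ∏ i, ‖kap b (s i) (a' i) (pt b (s i) (a i))‖ ≤
        ∏ i, (C1 * ev b (s i) (pt b (s i) (a i) - pt b (s i) (a' i))) :=
      Finset.prod_le_prod (fun i _ => norm_nonneg _) fun i _ => h1 _ _ _
    refine this.trans (le_of_eq ?_)
    rw [Finset.prod_mul_distrib, Finset.prod_const, Finset.card_univ, Fintype.card_fin]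
    rfl
  have hsym : ∀ a a' : Fin d → ℕ, EV b (s, a') (ptv b (s, a)) = EV b (s, a) (ptv b (s, a')) := by
    intro a a'
    unfold EV ptv
    refine Finset.prod_congr rfl fun i _ => ?_
    unfold ev
    rw [norm_sub_rev]
  have h3 := hS (Fin d → ℕ) (Fin d → ℕ) v (C1 ^ d * C2) (C1 ^ d * C2) (gr b s) (gr b s)
    (fun a a' => ∏ i, kap b (s i) (a' i) (pt b (s i) (a i))) (fun a' => g (ptv b (s, a'))) hv
    hC.le hC.le ?_ ?_
  · have e : (fun a : Fin d → ℕ => ∑ a' ∈ gr b s, (∏ i, kap b (s i) (a' i) (pt b (s i) (a i))) *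
        g (ptv b (s, a'))) = fun a => Dop b s g (ptv b (s, a)) := by
      funext a
      unfold Dop
      refine Finset.sum_congr rfl fun a' _ => ?_
      rw [mul_comm]
      rfl
    rw [e] at h3
    refine h3.trans (le_of_eq ?_)
    rw [← Real.rpow_add hC]
    have : 1 - 1 / v + 1 / v = 1 := by ring
    rw [this, Real.rpow_one]
  · intro a _
    refine (Finset.sum_le_sum fun a' _ => hbd a a').trans ?_
    rw [← Finset.mul_sum]
    exact mul_le_mul_of_nonneg_left (h2 s _) (pow_pos hC1 d).le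
  · intro a' _
    refine (Finset.sum_le_sum fun a _ => hbd a a').trans ?_
    rw [← Finset.mul_sum, Finset.sum_congr rfl fun a _ => hsym a a']
    exact mul_le_mul_of_nonneg_left (h2 s _) (pow_pos hC1 d).le

end Pool.Agent.Helper37.SU
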